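import Pool.Agent.V7H55.FP.Defs

set_option autoImplicit false

/-!
# The axioms for the `G`-set of the cosets of subgroups
-/

namespace Pool.Agent.V7H88.FP

open Pool.Agent.V7H55.FP

theorem t_BA : S_BA := by
  intro G K _ _ _ n D H1 H2
  have base : ∀ (f : (Σ i : Fin n, G ⧸ D i) → K), Ev (⊤ : Subgroup G) f → ∀ i,
      Fx (D i) (f ⟨i, ((1 : G) : G ⧸ D i)⟩) := by
    intro f hf i u hu
    have h := hf u (Subgroup.mem_top u) ⟨i, ((1 : G) : G ⧸ D i)⟩
    rw [← h]
    congr 1
    rw [Sigma.smul_mk]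
    congr 1
    show ((u * 1 : G) : G ⧸ D i) = ((1 : G) : G ⧸ D i)
    rw [QuotientGroup.eq]
    simpa using (D i).inv_mem hu
  constructor
  · rintro x y hx hy hx0 hy0 ⟨r, t, hr, ht, h⟩
    exact H1 x y hx hy hx0 hy0 fun i => ⟨r ⟨i, ((1 : G) : G ⧸ D i)⟩, t ⟨i, ((1 : G) : G ⧸ D i)⟩,
      base r hr i, base t ht i, h _⟩
  · intro z hz hz0
    obtain ⟨z0, hz0f, hz00, hr⟩ := H2 (fun i => z ⟨i, ((1 : G) : G ⧸ D i)⟩)
      (fun i => ⟨base z hz i, hz0 _⟩)
    choose r hrf hr0 hrz using hr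
    refine ⟨z0, hz0f, hz00, fun s => (Quotient.out s.2 : G) • r s.1, ?_, ?_⟩
    · rintro u _ ⟨i, q⟩
      show (Quotient.out (u • q) : G) • r i = u • (Quotient.out q : G) • r i
      have e1 : ((Quotient.out (u • q) : G) : G ⧸ D i) = ((u * Quotient.out q : G) : G ⧸ D i) := by
        rw [QuotientGroup.out_eq']
        conv_lhs => rw [← QuotientGroup.out_eq' q]
        rfl
      rw [eq_comm, QuotientGroup.eq] at e1
      have e2 := hrf i _ e1
      rw [← mul_smul]
      have e3 : (Quotient.out (u • q) : G) =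
          (u * Quotient.out q) * ((u * Quotient.out q)⁻¹ * Quotient.out (u • q)) := by group
      rw [e3, mul_smul, e2]
    · rintro ⟨i, q⟩
      constructor
      · show (Quotient.out q : G) • r i ≠ 0
        intro h
        exact hr0 i ((smul_eq_zero_iff_eq _).1 h)
      · show z ⟨i, q⟩ = z0 * ((Quotient.out q : G) • r i) ^ 2
        have e1 : (⟨i, q⟩ : Σ i : Fin n, G ⧸ D i) =
            (Quotient.out q : G) • (⟨i, ((1 : G) : G ⧸ D i)⟩ : Σ i : Fin n, G ⧸ D i) := by
          rw [Sigma.smul_mk]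
          congr 1
          conv_lhs => rw [← QuotientGroup.out_eq' q]
          show _ = ((Quotient.out q * 1 : G) : G ⧸ D i)
          rw [mul_one]
        rw [e1, hz _ (Subgroup.mem_top _), hrz i, smul_mul', smul_pow',
          hz0f _ (Subgroup.mem_top _)]

end Pool.Agent.V7H88.FP
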