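import Pool.Agent.V7H55.FP.Defs3

set_option autoImplicit false

/-!
# Dual families in an elementary abelian 2-group
-/

namespace Pool.Agent.V7H88.FP

open Pool.Agent.V7H55.FP

theorem t_LA : S_LA := by
  classical
  intro M _ Q R hsq hQR hidx ε
  haveI hf : Finite (M ⧸ Q) := by
    haveI : Q.FiniteIndex := ⟨hidx⟩
    exact Subgroup.finite_quotient_of_finiteIndex
  haveI hf' : Finite (Additive (M ⧸ Q)) := hf
  letI hm : Module (ZMod 2) (Additive (M ⧸ Q)) := AddCommGroup.zmodModule (n := 2) (by
    intro x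
    obtain ⟨m, hm⟩ := QuotientGroup.mk_surjective (Additive.toMul x)
    have : x = Additive.ofMul ((m : M ⧸ Q)) := by rw [hm]; rfl
    rw [this, ← ofMul_pow, ← QuotientGroup.mk_pow, (QuotientGroup.eq_one_iff _).2 (hsq m)]
    rfl)
  haveI hfin : Module.Finite (ZMod 2) (Additive (M ⧸ Q)) := Module.Finite.of_finite
  set mk : M → Additive (M ⧸ Q) := fun m => Additive.ofMul ((m : M ⧸ Q)) with hmk
  have mk_mul : ∀ x y, mk (x * y) = mk x + mk y := fun x y => rfl
  have mk_zero : ∀ x, mk x = 0 ↔ x ∈ Q := fun x => by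
    show Additive.ofMul ((x : M ⧸ Q)) = 0 ↔ _
    rw [ofMul_eq_zero, QuotientGroup.eq_one_iff]
  let R' : Submodule (ZMod 2) (Additive (M ⧸ Q)) :=
    AddSubgroup.toZModSubmodule 2 (Subgroup.toAddSubgroup (Subgroup.map (QuotientGroup.mk' Q) R))
  have hR1 : ∀ v ∈ R', ∃ x ∈ R, mk x = v := by
    rintro v ⟨x, hx, rfl⟩
    exact ⟨x, hx, rfl⟩
  have hR2 : ∀ x, mk x ∈ R' ↔ x ∈ R := by
    intro x
    constructor
    · intro h
      obtain ⟨y, hy, hyx⟩ := hR1 _ h
      have h1 : mk (y⁻¹ * x) = 0 := by
        have h2 : mk (y⁻¹ * x) = -mk y + mk x := rfl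
        rw [h2, hyx, neg_add_cancel]
      have h3 := R.mul_mem hy (hQR ((mk_zero _).1 h1))
      rwa [mul_inv_cancel_left] at h3
    · intro hx
      exact ⟨x, hx, rfl⟩
  -- the complement
  obtain ⟨C, hC, hεC⟩ : ∃ C : Submodule (ZMod 2) (Additive (M ⧸ Q)), IsCompl R' C ∧
      (ε ∉ R → mk ε ∈ C) := by
    by_cases hε : ε ∈ R
    · obtain ⟨C, hC⟩ := Submodule.exists_isCompl R'
      exact ⟨C, hC, fun h => absurd hε h⟩
    · have hd : Disjoint (Submodule.span (ZMod 2) {mk ε}) R' := by
        rw [Submodule.disjoint_def]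
        intro v hv hvR
        obtain ⟨c, rfl⟩ := Submodule.mem_span_singleton.1 hv
        have hc : c = 0 ∨ c = 1 := by
          revert c
          intro c _ _
          fin_cases c
          · left; rfl
          · right; rfl
        rcases hc with rfl | rfl
        · rw [zero_smul]
        · rw [one_smul] at hvR
          exact absurd ((hR2 ε).1 hvR) hε
      obtain ⟨C, hC1, hC2⟩ := hd.exists_isCompl
      exact ⟨C, hC2.symm, fun _ => hC1 (Submodule.mem_span_singleton_self _)⟩
  let b := Module.finBasis (ZMod 2) R'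
  choose v hvR hvb using fun j => hR1 _ (b j).2
  refine ⟨Module.finrank (ZMod 2) R', v, fun j x => b.coord j (R'.projectionOnto C hC (mk x)),
    hvR, ?_, ?_, ?_, ?_, ?_⟩
  · intro j x y
    show b.coord j _ = _
    rw [mk_mul, map_add, map_add]
  · intro j x hx
    show b.coord j _ = _
    rw [(mk_zero x).2 hx, map_zero, map_zero]
  · intro j l
    show b.coord j (R'.projectionOnto C hC (mk (v l))) = _
    rw [hvb l, Submodule.projectionOnto_apply_left, Module.Basis.coord_apply, b.repr_self,
      Finsupp.single_apply]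
    by_cases h : j = l
    · rw [if_pos h, if_pos h.symm]
    · rw [if_neg h, if_neg (Ne.symm h)]
  · intro x hx h
    have h1 : R'.projectionOnto C hC (mk x) = 0 := by
      apply b.ext_elem
      intro j
      rw [map_zero]
      exact h j
    rw [Submodule.projectionOnto_apply_of_mem_left hC ((hR2 x).2 hx)] at h1
    exact (mk_zero x).1 (congrArg Subtype.val h1)
  · intro hε j
    show b.coord j (R'.projectionOnto C hC (mk ε)) = _
    rw [(Submodule.projectionOnto_apply_eq_zero_iff hC).2 (hεC hε), map_zero]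

end Pool.Agent.V7H88.FP
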