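import Pool.Agent.V7H55.FP.Defs2
import Pool.Agent.V7H70.FP.D1
import Pool.Agent.V7H70.FP.D2

set_option autoImplicit false

/-!
# Symbols separate norms
-/

namespace Pool.Agent.V7H88.FP

open Pool.Agent.V7H55.FP

section

variable {G K : Type} [Group G] [Field K] [MulSemiringAction G K]

lemma zmod2_add_self (a : ZMod 2) : a + a = 0 := by
  revert a; decide

/-- the conjugate of a square root of a fixed element -/
lemma root_conj {β : K} {g : G} (h : g • β ^ 2 = β ^ 2) : g • β = β ∨ g • β = -β := by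
  rw [smul_pow'] at h
  exact sq_eq_sq_iff_eq_or_eq_neg.1 h

lemma neg_ne {β : K} (h2 : (2 : K) ≠ 0) (h0 : β ≠ 0) : -β ≠ β := by
  intro h
  have : (2 : K) * β = 0 := by linear_combination -h
  rcases mul_eq_zero.1 this with h | h
  · exact h2 h
  · exact h0 h

lemma sg_val {β : K} {g : G} (h2 : (2 : K) ≠ 0) (h0 : β ≠ 0) (h : g • β ^ 2 = β ^ 2) :
    (sg β g = 0 ∧ g • β = β) ∨ (sg β g = 1 ∧ g • β = -β) := by
  rcases root_conj h with h | h
  · left
    exact ⟨if_pos h, h⟩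
  · right
    refine ⟨if_neg ?_, h⟩
    rw [h]
    exact neg_ne h2 h0

/-- the characters multiply -/
lemma sg_mul {α β γ : K} {g : G} (h2 : (2 : K) ≠ 0) (hα : α ≠ 0) (hβ : β ≠ 0)
    (h1 : g • α ^ 2 = α ^ 2) (h3 : g • β ^ 2 = β ^ 2) (h : γ ^ 2 = α ^ 2 * β ^ 2) :
    sg γ g = sg α g + sg β g := by
  have hγ : γ = α * β ∨ γ = -(α * β) := by
    apply sq_eq_sq_iff_eq_or_eq_neg.1
    rw [h]
    ring
  have hγ0 : γ ≠ 0 := by
    intro h0
    rw [h0] at h
    have : α ^ 2 * β ^ 2 ≠ 0 := mul_ne_zero (pow_ne_zero 2 hα) (pow_ne_zero 2 hβ)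
    apply this
    rw [← h]
    ring
  have hγ2 : g • γ ^ 2 = γ ^ 2 := by
    rw [h, smul_mul', h1, h3]
  rcases sg_val h2 hα h1 with ⟨a1, a2⟩ | ⟨a1, a2⟩ <;> rcases sg_val h2 hβ h3 with ⟨b1, b2⟩ | ⟨b1, b2⟩ <;>
    rcases sg_val h2 hγ0 hγ2 with ⟨c1, c2⟩ | ⟨c1, c2⟩
  · rw [a1, b1, c1]; rfl
  · exfalso
    have : g • γ = γ := by
      rcases hγ with h' | h'
      · rw [h', smul_mul', a2, b2]
      · rw [h', smul_neg, smul_mul', a2, b2]
    rw [c2] at this
    exact neg_ne h2 hγ0 this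
  · exfalso
    have : g • γ = -γ := by
      rcases hγ with h' | h'
      · rw [h', smul_mul', a2, b2]; ring
      · rw [h', smul_neg, smul_mul', a2, b2]; ring
    rw [c2] at this
    exact neg_ne h2 hγ0 this.symm
  · rw [a1, b1, c1]; rfl
  · exfalso
    have : g • γ = -γ := by
      rcases hγ with h' | h'
      · rw [h', smul_mul', a2, b2]; ring
      · rw [h', smul_neg, smul_mul', a2, b2]; ring
    rw [c2] at this
    exact neg_ne h2 hγ0 this.symm
  · rw [a1, b1, c1]; rfl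
  · rw [a1, b1, c1]; rfl
  · exfalso
    have : g • γ = γ := by
      rcases hγ with h' | h'
      · rw [h', smul_mul', a2, b2]; ring
      · rw [h', smul_neg, smul_mul', a2, b2]; ring
    rw [c2] at this
    exact neg_ne h2 hγ0 this

/-- the coboundaries of locally constant functions -/
def cob (G : Type) [Group G] [TopologicalSpace G] : Submodule (ZMod 2) (G → G → ZMod 2) where
  carrier := {f | ∃ e : G → ZMod 2, LC (⊤ : Subgroup G) e ∧ ∀ g h, f g h = e (g * h) + e g + e h}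
  zero_mem' := ⟨fun _ => 0, ⟨⊤, isOpen_univ, fun _ _ _ _ _ => rfl⟩, fun _ _ => by simp⟩
  add_mem' := by
    rintro f f' ⟨e, ⟨W, hW, he⟩, hf⟩ ⟨e', ⟨W', hW', he'⟩, hf'⟩
    refine ⟨fun g => e g + e' g, ⟨W ⊓ W', hW.inter hW', ?_⟩, ?_⟩
    · intro h hh w hw hww
      show e (h * w) + e' (h * w) = e h + e' h
      rw [he h hh w hw hww.1, he' h hh w hw hww.2]
    · intro g h
      show f g h + f' g h = _
      rw [hf, hf']
      ring
  smul_mem' := by
    rintro c f ⟨e, ⟨W, hW, he⟩, hf⟩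
    refine ⟨fun g => c * e g, ⟨W, hW, ?_⟩, ?_⟩
    · intro h hh w hw hww
      show c * e (h * w) = c * e h
      rw [he h hh w hw hww]
    · intro g h
      show c * f g h = _
      rw [hf]
      ring

end

theorem t_SEP : S_SEP := by
  classical
  intro F K _ _ _ _ h2 hsq a b hab
  choose rt hrt using fun x : Fˣ => hsq (algebraMap F K x)
  have hx0 : ∀ x : Fˣ, algebraMap F K x ≠ 0 := fun x => by
    rw [Ne, FaithfulSMul.algebraMap_eq_zero_iff]
    exact x.ne_zero
  have hrt0 : ∀ x, rt x ≠ 0 := by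
    intro x h
    apply hx0 x
    rw [← hrt x, h]
    ring
  have hfix : ∀ (g : K ≃ₐ[F] K) (x : F), g • algebraMap F K x = algebraMap F K x :=
    fun g x => g.commutes x
  have hrt2 : ∀ (x : Fˣ) (g : K ≃ₐ[F] K), g • rt x ^ 2 = rt x ^ 2 := by
    intro x g
    rw [hrt x]
    exact hfix g x
  have hmul : ∀ (x y : Fˣ) (g : K ≃ₐ[F] K), sg (rt (x * y)) g = sg (rt x) g + sg (rt y) g := by
    intro x y g
    refine sg_mul h2 (hrt0 x) (hrt0 y) (hrt2 x g) (hrt2 y g) ?_
    rw [hrt, hrt, hrt, Units.val_mul, map_mul]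
  set S : Fˣ → Fˣ → (K ≃ₐ[F] K) → (K ≃ₐ[F] K) → ZMod 2 := fun x y g h =>
    sg (rt y) g * sg (rt x) h with hS
  have hnot : S a b ∉ cob (K ≃ₐ[F] K) := by
    rintro ⟨e, he, hf⟩
    obtain ⟨r, t, hr, ht, h⟩ := Pool.Agent.V7H70.FP.t_D2 F K h2 hsq (⊤ : Subgroup (K ≃ₐ[F] K))
      isClosed_univ (rt a) (rt b) (hrt0 a) (hrt0 b) (fun g _ => hrt2 a g) (fun g _ => hrt2 b g) e he
      (fun g _ h _ => by
        have h1 := hf g h
        have h3 : sg (rt b) g * sg (rt a) h = e (g * h) + e g + e h := h1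
        rw [h3]
        have e1 := zmod2_add_self (e g)
        have e2 := zmod2_add_self (e h)
        linear_combination -e1 - e2)
    obtain ⟨r0, rfl⟩ := (InfiniteGalois.mem_range_algebraMap_iff_fixed r).2 fun f => hr f trivial
    obtain ⟨t0, rfl⟩ := (InfiniteGalois.mem_range_algebraMap_iff_fixed t).2 fun f => ht f trivial
    apply hab
    refine ⟨r0, t0, ?_⟩
    apply FaithfulSMul.algebraMap_injective F K
    rw [map_sub, map_mul, map_pow, map_pow, ← hrt b, ← hrt a]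
    exact h
  have hq : Submodule.Quotient.mk (p := cob (K ≃ₐ[F] K)) (S a b) ≠ 0 := by
    rw [Ne, Submodule.Quotient.mk_eq_zero]
    exact hnot
  obtain ⟨f, hf⟩ : ∃ f : Module.Dual (ZMod 2)
      (((K ≃ₐ[F] K) → (K ≃ₐ[F] K) → ZMod 2) ⧸ cob (K ≃ₐ[F] K)),
      f (Submodule.Quotient.mk (S a b)) ≠ 0 := by
    by_contra hc
    push Not at hc
    exact hq ((Module.forall_dual_apply_eq_zero_iff (ZMod 2) _).1 hc)
  refine ⟨fun x y => f (Submodule.Quotient.mk (S x y)), ?_, ?_, ?_, hf⟩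
  · intro x y z
    show f _ = f _ + f _
    rw [← map_add, ← Submodule.Quotient.mk_add]
    congr 2
    funext g h
    show sg (rt z) g * sg (rt (x * y)) h = sg (rt z) g * sg (rt x) h + sg (rt z) g * sg (rt y) h
    rw [hmul]
    ring
  · intro x y z
    show f _ = f _ + f _
    rw [← map_add, ← Submodule.Quotient.mk_add]
    congr 2
    funext g h
    show sg (rt (y * z)) g * sg (rt x) h = sg (rt y) g * sg (rt x) h + sg (rt z) g * sg (rt x) h
    rw [hmul]
    ring
  · rintro x y ⟨r, t, h⟩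
    show f _ = 0
    have hmem : S x y ∈ cob (K ≃ₐ[F] K) := by
      obtain ⟨e, he, hf⟩ := Pool.Agent.V7H70.FP.t_D1 F K h2 hsq (⊤ : Subgroup (K ≃ₐ[F] K)) (rt x)
        (rt y) (algebraMap F K r) (algebraMap F K t) (hrt0 x) (hrt0 y) (fun g _ => hrt2 x g)
        (fun g _ => hrt2 y g) (fun g _ => hfix g r) (fun g _ => hfix g t) (by
          rw [hrt, hrt, h, map_sub, map_mul, map_pow, map_pow])
      refine ⟨e, he, fun g h => ?_⟩
      have h1 := hf g trivial h trivial
      show sg (rt y) g * sg (rt x) h = _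
      rw [h1]
      have e1 := zmod2_add_self (e g)
      have e2 := zmod2_add_self (e h)
      linear_combination -e1 - e2
    rw [(Submodule.Quotient.mk_eq_zero _).2 hmem, map_zero]

end Pool.Agent.V7H88.FP
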