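import Pool.Agent.V7H55.FP.Defs

set_option autoImplicit false

/-!
# Approximation for a quadratic extension
-/

namespace Pool.Agent.V7H88.FP

open Pool.Agent.V7H55.FP

section

variable {G K S : Type} [Group G] [Field K] [MulSemiringAction G K] [MulAction G S]

/-- the conjugate function -/
def br (τ : G) (f : S → K) (s : S) : K := τ • f (τ⁻¹ • s)

lemma smul_inv0 (g : G) (x : K) : g • x⁻¹ = (g • x)⁻¹ := by
  by_cases hx : x = 0
  · subst hx
    simp
  · apply eq_inv_of_mul_eq_one_left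
    rw [← smul_mul', inv_mul_cancel₀ hx, smul_one]

lemma smul_div0 (g : G) (x y : K) : g • (x / y) = g • x / g • y := by
  rw [div_eq_mul_inv, smul_mul', smul_inv0, div_eq_mul_inv]

lemma half_sq {U U' : Subgroup G} {τ : G} {w : K} (h : Half U U' τ w) : τ * τ ∈ U' := by
  obtain ⟨_, h2, h3, h4, _⟩ := h
  rcases h4 (τ * τ) (U.mul_mem h2 h2) with h | h
  · exact h
  · rw [← mul_assoc, inv_mul_cancel, one_mul] at h
    exact absurd h h3

lemma half_conj {U U' : Subgroup G} {τ : G} {w : K} (h : Half U U' τ w) {u : G} (hu : u ∈ U') :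
    τ⁻¹ * u * τ ∈ U' := by
  obtain ⟨h1, h2, h3, h4, _⟩ := h
  rcases h4 (u * τ) (U.mul_mem (h1 hu) h2) with h | h
  · exact absurd ((U'.mul_mem_cancel_left hu).1 h) h3
  · rwa [← mul_assoc] at h

lemma br_ev {U U' : Subgroup G} {τ : G} {w : K} (h : Half U U' τ w) {f : S → K} (hf : Ev U' f) :
    Ev U' (br τ f) := by
  intro u hu s
  unfold br
  have e1 : τ⁻¹ • u • s = (τ⁻¹ * u * τ) • τ⁻¹ • s := by
    rw [← mul_smul, ← mul_smul]
    congr 1
    group
  rw [e1, hf _ (half_conj h hu), ← mul_smul, ← mul_smul]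
  congr 1
  group

lemma br_br {U U' : Subgroup G} {τ : G} {w : K} (h : Half U U' τ w) {f : S → K} (hf : Ev U' f)
    (s : S) : br τ (br τ f) s = f s := by
  unfold br
  have e1 : τ⁻¹ • τ⁻¹ • s = (τ * τ)⁻¹ • s := by
    rw [← mul_smul]
    congr 1
    group
  rw [e1, hf _ (U'.inv_mem (half_sq h)), ← mul_smul, ← mul_smul]
  rw [mul_inv_cancel, one_smul]

lemma ev_of_br {U U' : Subgroup G} {τ : G} {w : K} (h : Half U U' τ w) {f : S → K} (hf : Ev U' f)
    (hb : ∀ s, br τ f s = f s) : Ev U f := by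
  intro u hu s
  obtain ⟨h1, h2, h3, h4, _⟩ := h
  rcases h4 u hu with h | h
  · exact hf u h s
  · have e1 : u • s = τ • (τ⁻¹ * u) • s := by
      rw [← mul_smul]
      congr 1
      group
    rw [e1, ← hb]
    unfold br
    rw [inv_smul_smul, hf _ h, ← mul_smul]
    congr 1
    group

lemma br_of_ev {U U' : Subgroup G} {τ : G} {w : K} (h : Half U U' τ w) {f : S → K} (hf : Ev U f)
    (s : S) : br τ f s = f s := by
  unfold br
  rw [hf _ (U.inv_mem h.2.1), smul_inv_smul]

lemma fx_of {U U' : Subgroup G} {τ : G} {w : K} (h : Half U U' τ w) {x : K} (hx : Fx U' x)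
    (hb : τ • x = x) : Fx U x := by
  intro u hu
  obtain ⟨h1, h2, h3, h4, _⟩ := h
  rcases h4 u hu with h | h
  · exact hx u h
  · have e1 : u • x = τ • (τ⁻¹ * u) • x := by
      rw [← mul_smul]
      congr 1
      group
    rw [e1, hx _ h, hb]

lemma ev_mul {U : Subgroup G} {f g : S → K} (hf : Ev U f) (hg : Ev U g) :
    Ev U (fun s => f s * g s) := by
  intro u hu s
  show f (u • s) * g (u • s) = u • (f s * g s)
  rw [hf u hu, hg u hu, smul_mul']

lemma ev_div {U : Subgroup G} {f g : S → K} (hf : Ev U f) (hg : Ev U g) :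
    Ev U (fun s => f s / g s) := by
  intro u hu s
  show f (u • s) / g (u • s) = u • (f s / g s)
  rw [hf u hu, hg u hu, smul_div0]

lemma ev_const {U : Subgroup G} {x : K} (hx : Fx U x) : Ev U (fun _ : S => x) := by
  intro u hu s
  exact (hx u hu).symm

end

theorem t_ST2 : S_ST2 := by
  classical
  intro G K S _ _ _ _ U U' τ w h2 hH hA z hz hz0
  have hH' := hH
  obtain ⟨hUU, hτU, hτU', hcos, hw0, hwU', hτw⟩ := hH'
  have hzb := br_ev hH hz
  have hzb0 : ∀ s, br τ z s ≠ 0 := by
    intro s h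
    exact hz0 _ ((smul_eq_zero_iff_eq _).1 h)
  -- `z zbar`
  have hN : Ev U (fun s => z s * br τ z s) := by
    refine ev_of_br hH (ev_mul hz hzb) fun s => ?_
    show τ • (z (τ⁻¹ • s) * br τ z (τ⁻¹ • s)) = _
    rw [smul_mul']
    have e1 : τ • br τ z (τ⁻¹ • s) = z s := br_br hH hz s
    rw [e1]
    show br τ z s * z s = _
    ring
  obtain ⟨y, hyU, hy0, r, hrU, hr⟩ := hA.h2 _ hN (fun s => mul_ne_zero (hz0 s) (hzb0 s))
  have hr0 : ∀ s, r s ≠ 0 := fun s => (hr s).1
  have hry : ∀ s, z s * br τ z s = y * r s ^ 2 := fun s => (hr s).2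
  have hrU' : Ev U' r := fun u hu s => hrU u (hUU hu) s
  -- the quotient
  set f : S → K := fun s => z s / r s with hf
  have hfU' : Ev U' f := ev_div hz hrU'
  have hfb : ∀ s, br τ f s = br τ z s / r s := by
    intro s
    have e := br_of_ev hH hrU s
    unfold br at e ⊢
    show τ • (z (τ⁻¹ • s) / r (τ⁻¹ • s)) = _
    rw [smul_div0, e]
  have hfy : ∀ s, f s * br τ f s = y := by
    intro s
    rw [hfb]
    show z s / r s * (br τ z s / r s) = y
    rw [div_mul_div_comm, hry]
    field_simp [hr0 s]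
  have hfbU' := br_ev hH hfU'
  have h20 : ∀ g : G, g • (2 : K) = 2 := by
    intro g
    have : (2 : K) = 1 + 1 := by norm_num
    rw [this, smul_add, smul_one]
  have hAU : Ev U (fun s => (f s + br τ f s) / 2) := by
    refine ev_of_br hH ?_ fun s => ?_
    · intro u hu s
      show (f (u • s) + br τ f (u • s)) / 2 = u • ((f s + br τ f s) / 2)
      rw [hfU' u hu, hfbU' u hu, smul_div0 u (f s + br τ f s) 2, smul_add, h20]
    · show τ • ((f (τ⁻¹ • s) + br τ f (τ⁻¹ • s)) / 2) = _
      have e1 : τ • br τ f (τ⁻¹ • s) = f s := br_br hH hfU' s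
      rw [smul_div0, smul_add, h20, e1]
      show (br τ f s + f s) / 2 = (f s + br τ f s) / 2
      ring
  have hBU : Ev U (fun s => (f s - br τ f s) / (2 * w)) := by
    refine ev_of_br hH ?_ fun s => ?_
    · intro u hu s
      show (f (u • s) - br τ f (u • s)) / (2 * w) = u • ((f s - br τ f s) / (2 * w))
      rw [hfU' u hu, hfbU' u hu, smul_div0 u (f s - br τ f s) (2 * w), smul_sub, smul_mul', h20,
        hwU' u hu]
    · show τ • ((f (τ⁻¹ • s) - br τ f (τ⁻¹ • s)) / (2 * w)) = _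
      have e1 : τ • br τ f (τ⁻¹ • s) = f s := br_br hH hfU' s
      rw [smul_div0, smul_sub, smul_mul', h20, e1, hτw]
      show (br τ f s - f s) / (2 * -w) = (f s - br τ f s) / (2 * w)
      field_simp
      ring
  have hw2U : Fx U (w ^ 2) := by
    refine fx_of hH ?_ ?_
    · intro u hu
      rw [smul_pow', hwU' u hu]
    · rw [smul_pow', hτw]
      ring
  obtain ⟨a, b, ha, hb, hab⟩ := hA.h1 (w ^ 2) y hw2U hyU (pow_ne_zero 2 hw0) hy0
    ⟨_, _, hAU, hBU, fun s => by
      show y = ((f s + br τ f s) / 2) ^ 2 - w ^ 2 * ((f s - br τ f s) / (2 * w)) ^ 2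
      have h4 : (4 : K) ≠ 0 := by
        have : (4 : K) = 2 * 2 := by norm_num
        rw [this]
        exact mul_ne_zero h2 h2
      have e : ((f s + br τ f s) / 2) ^ 2 - w ^ 2 * ((f s - br τ f s) / (2 * w)) ^ 2 =
          f s * br τ f s := by
        field_simp
        ring
      rw [e, hfy]⟩
  set u0 : K := a + b * w with hu0
  have hu0U' : Fx U' u0 := by
    intro u hu
    rw [hu0, smul_add, smul_mul', ha u (hUU hu), hb u (hUU hu), hwU' u hu]
  have hτu0 : τ • u0 = a - b * w := by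
    rw [hu0, smul_add, smul_mul', ha τ hτU, hb τ hτU, hτw]
    ring
  have hprod : u0 * (τ • u0) = y := by
    rw [hτu0, hab, hu0]
    ring
  have hu00 : u0 ≠ 0 := by
    intro h
    rw [h, zero_mul] at hprod
    exact hy0 hprod.symm
  have hτu00 : τ • u0 ≠ 0 := by
    intro h
    exact hu00 ((smul_eq_zero_iff_eq _).1 h)
  set ζ : S → K := fun s => f s / u0 with hζ
  have hζU' : Ev U' ζ := ev_div hfU' (ev_const hu0U')
  have hζb : ∀ s, br τ ζ s = br τ f s / (τ • u0) := by
    intro s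
    unfold br
    show τ • (f (τ⁻¹ • s) / u0) = _
    rw [smul_div0]
  have hζ1 : ∀ s, ζ s * br τ ζ s = 1 := by
    intro s
    rw [hζb]
    show f s / u0 * (br τ f s / (τ • u0)) = 1
    rw [div_mul_div_comm, hfy, hprod, div_self hy0]
  have hm1 : ∀ g : G, g • (-1 : K) = -1 := by
    intro g
    rw [smul_neg, smul_one]
  set η : S → K := fun s => if ζ s = -1 then w else 1 + ζ s with hη
  have hηU' : Ev U' η := by
    intro u hu s
    show (if ζ (u • s) = -1 then w else 1 + ζ (u • s)) = u • (if ζ s = -1 then w else 1 + ζ s)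
    rw [hζU' u hu]
    by_cases h : ζ s = -1
    · rw [if_pos h, h, hm1, if_pos rfl, hwU' u hu]
    · have h' : u • ζ s ≠ -1 := by
        intro h'
        apply h
        have := congrArg (fun x => u⁻¹ • x) h'
        simpa [hm1] using this
      rw [if_neg h, if_neg h', smul_add, smul_one]
  have hη0 : ∀ s, η s ≠ 0 := by
    intro s
    show (if ζ s = -1 then w else 1 + ζ s) ≠ 0
    split_ifs with h
    · exact hw0
    · intro h'
      apply h
      linear_combination h'
  have hηb : ∀ s, ζ s * br τ η s = η s := by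
    intro s
    have h1 := hζ1 s
    unfold br at h1 ⊢
    show ζ s * τ • (if ζ (τ⁻¹ • s) = -1 then w else 1 + ζ (τ⁻¹ • s)) =
      (if ζ s = -1 then w else 1 + ζ s)
    by_cases h : ζ (τ⁻¹ • s) = -1
    · rw [h, hm1] at h1
      have h3 : ζ s = -1 := by linear_combination -h1
      rw [if_pos h, if_pos h3, hτw, h3]
      ring
    · have h3 : ζ s ≠ -1 := by
        intro h3
        rw [h3] at h1
        have h4 : τ • ζ (τ⁻¹ • s) = -1 := by linear_combination -h1
        apply h
        have := congrArg (fun x => τ⁻¹ • x) h4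
        simpa [hm1] using this
      rw [if_neg h, if_neg h3, smul_add, smul_one, mul_add, h1]
      ring
  have hηb0 : ∀ s, br τ η s ≠ 0 := by
    intro s h
    exact hη0 _ ((smul_eq_zero_iff_eq _).1 h)
  have hηbU' := br_ev hH hηU'
  have hgU : Ev U (fun s => r s / (η s * br τ η s)) := by
    refine ev_div hrU ?_
    refine ev_of_br hH (ev_mul hηU' hηbU') fun s => ?_
    show τ • (η (τ⁻¹ • s) * br τ η (τ⁻¹ • s)) = _
    rw [smul_mul']
    have e1 : τ • br τ η (τ⁻¹ • s) = η s := br_br hH hηU' s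
    rw [e1]
    show br τ η s * η s = _
    ring
  obtain ⟨c, hcU, hc0, ρ, hρU, hρ⟩ := hA.h2 _ hgU
    (fun s => div_ne_zero (hr0 s) (mul_ne_zero (hη0 s) (hηb0 s)))
  refine ⟨u0 * c, ?_, mul_ne_zero hu00 hc0, fun s => η s * ρ s,
    ev_mul hηU' (fun u hu s => hρU u (hUU hu) s), fun s => ⟨mul_ne_zero (hη0 s) (hρ s).1, ?_⟩⟩
  · intro u hu
    rw [smul_mul', hu0U' u hu, hcU u (hUU hu)]
  · show z s = u0 * c * (η s * ρ s) ^ 2
    have e1 : z s = r s * u0 * ζ s := by
      show z s = r s * u0 * (z s / r s / u0)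
      field_simp [hr0 s, hu00]
    have e2 : ζ s = η s / br τ η s := by
      rw [← hηb s]
      field_simp [hηb0 s]
    have e3 : r s / (η s * br τ η s) = c * ρ s ^ 2 := (hρ s).2
    have e4 : r s = c * ρ s ^ 2 * (η s * br τ η s) := by
      rw [← e3, div_mul_cancel₀ _ (mul_ne_zero (hη0 s) (hηb0 s))]
    rw [e1, e2, e4]
    field_simp [hηb0 s]

end Pool.Agent.V7H88.FP
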